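import Pool.Agent.H61.AR.Targets

/-!
# INC: points which are not on the circle
-/

set_option autoImplicit false

open Set Function MeasureTheory Filter Topology
open scoped Manifold ContDiff Matrix

namespace Pool.Agent.H41.AR

open Pool.Agent.H61.AR Pool.Agent.H60.CM

theorem pf_INC (h1 : T_BPA) (h2 : T_SCO) (h3 : T_IEP) (h4 : T_DSM) (h5 : T_NRM) (h6 : T_LCB) :
    T_INC := by
  intro D c F hc hF hFi
  obtain ⟨γ, hγ⟩ := h1 D
  obtain ⟨s, hs⟩ := h2 D γ hγ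
  obtain ⟨hcr, hcz, hsq, -⟩ := h5 D γ hγ
  refine le_of_forall_pos_le_add fun η hη => ?_
  have h4' := (h4 D c F (η / 4) (by positivity) hF hFi).1
  obtain ⟨ε, hε, hε0⟩ := (h4'.and self_mem_nhdsWithin).exists
  have hε' : 0 < ε := hε0
  have hI := h3 D γ s hγ hs c ε hε'
  have hL := h6 D.r c ε (nr D γ) (nz D γ) D.cmc.r_pos hc hε' hcr hcz hsq
  have hb : |∫ θ in (0 : ℝ)..(2 * Real.pi), bt D γ c ε θ| ≤ 2 * Real.pi := hL
  have hsI : s * ∫ θ in (0 : ℝ)..(2 * Real.pi), bt D γ c ε θ ≤ 2 * Real.pi := by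
    calc s * ∫ θ in (0 : ℝ)..(2 * Real.pi), bt D γ c ε θ
        ≤ |s * ∫ θ in (0 : ℝ)..(2 * Real.pi), bt D γ c ε θ| := le_abs_self _
      _ = |s| * |∫ θ in (0 : ℝ)..(2 * Real.pi), bt D γ c ε θ| := abs_mul _ _
      _ ≤ 1 * (2 * Real.pi) := mul_le_mul hs.1 hb (abs_nonneg _) zero_le_one
      _ = 2 * Real.pi := one_mul _
  have hfe : 0 ≤ ∫ p in D.int, fe D c ε p ^ 2 ∂D.μ := integral_nonneg fun p => sq_nonneg _
  linarith

end Pool.Agent.H41.AR
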